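import Mathlib
import Pool.Agent.W896.RK.Defs

/-!
# Systems of linear inequalities as binary words: the definitions used in the statement
-/

set_option autoImplicit false

namespace Pool.Agent.Q230.LF

open Matrix

/-- The input bits for a system of `m` inequalities in `n` unknowns with entries `-1`, `0`, `1`: the
two bits `inl (i, j, false)` and `inl (i, j, true)` for the entry `A i j`, and the two bits
`inr (i, false)` and `inr (i, true)` for the right-hand side `b i`. -/
abbrev Bit (m n : ℕ) : Type := (Fin m × Fin n × Bool) ⊕ (Fin m × Bool)

/-- The matrix: each entry is the difference of its two bits. -/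
def mat {m n : ℕ} (x : Bit m n → Bool) : Matrix (Fin m) (Fin n) ℝ :=
  Matrix.of fun i j => ((x (.inl (i, j, false))).toNat : ℝ) - (x (.inl (i, j, true))).toNat

/-- The right-hand side: each entry is the difference of its two bits. -/
def vec {m n : ℕ} (x : Bit m n → Bool) (i : Fin m) : ℝ :=
  ((x (.inr (i, false))).toNat : ℝ) - (x (.inr (i, true))).toNat

/-- The system of inequalities has a real solution. -/
def Solvable {m n : ℕ} (x : Bit m n → Bool) : Prop := ∃ y : Fin n → ℝ, vec x ≤ mat x *ᵥ y

end Pool.Agent.Q230.LF
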