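import Pool.Agent.Q230.LF.Defs
import Pool.Agent.W896.FD.Tri

/-!
# Linear feasibility, and circuits of small formal degree: the systems
-/

set_option autoImplicit false

open Finset Matrix

namespace Pool.Agent.Q230.LF

open Pool.Agent.W896.RK Pool.Agent.W896.HP Pool.Agent.W896.FD Pool.Agent.W896.FD.Star

variable {m n b : ℕ}

/-- The blocks. -/
def cc (hb : 4 * b ≤ m) : Fin b × Fin 4 ↪ Fin m where
  toFun p := ⟨4 * p.1.val + p.2.val, by
    have h1 := p.1.isLt
    have h2 := p.2.isLt
    omega⟩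
  inj' := by
    rintro ⟨i, x⟩ ⟨j, y⟩ h
    have h1 : 4 * i.val + x.val = 4 * j.val + y.val := congrArg Fin.val h
    have h2 := x.isLt
    have h3 := y.isLt
    have h4 : i = j := Fin.ext (by omega)
    have h5 : x = y := Fin.ext (by omega)
    rw [h4, h5]

/-- The free bits. -/
def fr (e : Fin m) : Bit (m + 1) n := .inr (e.succ, false)

theorem fr_inj : Function.Injective (fr : Fin m → Bit (m + 1) n) := by
  intro e e' h
  have h1 : (e.succ, false) = (e'.succ, false) := Sum.inr.inj h
  exact Fin.succ_injective _ (congrArg Prod.fst h1)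

/-- The value at a place of the row. -/
theorem gr_zero (ν : Bool) (hb : 4 * b ≤ m) (z z' : Fin b → Bool) (j : Fin b) {r : Fin m}
    (hr : r.val = 4 * j.val) : grS ν (cc hb) z z' r = z j := by
  have : r = cc hb (j, 0) := Fin.ext hr
  rw [this]
  unfold grS
  exact fill_apply (prS_inj (cc hb).injective) _ _ (.inl j)

theorem gr_two (ν : Bool) (hb : 4 * b ≤ m) (z z' : Fin b → Bool) (j : Fin b) {r : Fin m}
    (hr : r.val = 4 * j.val + 2) : grS ν (cc hb) z z' r = xor ν (z' j) := by
  have : r = cc hb (j, 2) := Fin.ext hr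
  rw [this]
  unfold grS
  exact fill_apply (prS_inj (cc hb).injective) (fun _ => false)
    (Sum.elim z (fun i => xor ν (z' i))) (.inr j)

theorem gr_other (ν : Bool) (hb : 4 * b ≤ m) (z z' : Fin b → Bool) {r : Fin m}
    (h : ∀ j < b, r.val ≠ 4 * j ∧ r.val ≠ 4 * j + 2) : grS ν (cc hb) z z' r = false := by
  unfold grS
  apply fill_other
  rintro (j | j) hj
  · exact (h j.val j.isLt).1 (congrArg Fin.val hj).symm
  · exact (h j.val j.isLt).2 (congrArg Fin.val hj).symm

/-- The kinds of places. -/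
theorem place (b : ℕ) (r : ℕ) : (∃ j < b, r = 4 * j) ∨ (∃ j < b, r = 4 * j + 2) ∨
    ∀ j < b, r ≠ 4 * j ∧ r ≠ 4 * j + 2 := by
  by_cases h : r / 4 < b
  · rcases (by omega : r % 4 = 0 ∨ r % 4 = 2 ∨ (r % 4 ≠ 0 ∧ r % 4 ≠ 2)) with h1 | h1 | h1
    · exact Or.inl ⟨r / 4, h, by omega⟩
    · exact Or.inr (Or.inl ⟨r / 4, h, by omega⟩)
    · exact Or.inr (Or.inr (fun j hj => by omega))
  · exact Or.inr (Or.inr (fun j hj => by omega))

/-- The fixed bits: in the row for the place `r`, the entry `j` is `P r j - N r j`, and the constant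
`γ r` is subtracted from the right-hand side; the first row has the entries `P0 j` and the right-hand
side `β0`. -/
def fG (n : ℕ) (P N : ℕ → ℕ → Bool) (γ P0 : ℕ → Bool) (β0 : Bool) (ρ : Equiv.Perm (Fin m)) :
    Bit (m + 1) n → Bool
  | .inl (i, j, s) => if h : i = 0 then (!s && P0 j.val) else
      (if s = true then N (ρ.symm (i.pred h)).val j.val else P (ρ.symm (i.pred h)).val j.val)
  | .inr (i, s) => if h : i = 0 then (!s && β0) else s && γ (ρ.symm (i.pred h)).val

variable (P N : ℕ → ℕ → Bool) (γ P0 : ℕ → Bool) (β0 : Bool)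

/-- The system. -/
noncomputable def iG (n : ℕ) (hb : 4 * b ≤ m) (ρ : Equiv.Perm (Fin m)) (z z' : Fin b → Bool) :
    Bit (m + 1) n → Bool :=
  inS true fr (fG n P N γ P0 β0) (cc hb) ρ z z'

theorem iG_inl (hb : 4 * b ≤ m) (ρ : Equiv.Perm (Fin m)) (z z' : Fin b → Bool)
    (v : Fin (m + 1) × Fin n × Bool) :
    iG P N γ P0 β0 n hb ρ z z' (.inl v) = fG n P N γ P0 β0 ρ (.inl v) := by
  unfold iG inS
  apply fill_other
  intro e he
  cases he

theorem iG_true (hb : 4 * b ≤ m) (ρ : Equiv.Perm (Fin m)) (z z' : Fin b → Bool)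
    (i : Fin (m + 1)) :
    iG P N γ P0 β0 n hb ρ z z' (.inr (i, true)) = fG n P N γ P0 β0 ρ (.inr (i, true)) := by
  unfold iG inS
  apply fill_other
  intro e he
  have := congrArg Prod.snd (Sum.inr.inj he)
  cases this

theorem iG_zero (hb : 4 * b ≤ m) (ρ : Equiv.Perm (Fin m)) (z z' : Fin b → Bool) :
    iG P N γ P0 β0 n hb ρ z z' (.inr (0, false)) = β0 := by
  unfold iG inS
  rw [fill_other]
  · simp [fG]
  · intro e he
    have := congrArg Prod.fst (Sum.inr.inj he)
    exact Fin.succ_ne_zero e this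

theorem iG_free (hb : 4 * b ≤ m) (ρ : Equiv.Perm (Fin m)) (z z' : Fin b → Bool) (e : Fin m) :
    iG P N γ P0 β0 n hb ρ z z' (.inr (e.succ, false)) = grS true (cc hb) z z' (ρ.symm e) := by
  unfold iG inS
  exact fill_apply (fr_inj (n := n)) _ _ e

theorem vec_succ (hb : 4 * b ≤ m) (ρ : Equiv.Perm (Fin m)) (z z' : Fin b → Bool) (e : Fin m) :
    vec (iG P N γ P0 β0 n hb ρ z z') e.succ =
      ((grS true (cc hb) z z' (ρ.symm e)).toNat : ℝ) - (γ (ρ.symm e).val).toNat := by
  unfold vec
  rw [iG_free, iG_true]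
  simp [fG]

theorem vec_zero (hb : 4 * b ≤ m) (ρ : Equiv.Perm (Fin m)) (z z' : Fin b → Bool) :
    vec (iG P N γ P0 β0 n hb ρ z z') 0 = (β0.toNat : ℝ) := by
  unfold vec
  rw [iG_zero, iG_true]
  simp [fG]

theorem row_succ (hb : 4 * b ≤ m) (ρ : Equiv.Perm (Fin m)) (z z' : Fin b → Bool) (e : Fin m)
    (y : Fin n → ℝ) : (mat (iG P N γ P0 β0 n hb ρ z z') *ᵥ y) e.succ =
      ∑ j : Fin n, (((P (ρ.symm e).val j.val).toNat : ℝ) - (N (ρ.symm e).val j.val).toNat) *
        y j := by
  show ∑ j, mat (iG P N γ P0 β0 n hb ρ z z') e.succ j * y j = _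
  refine sum_congr rfl (fun j _ => ?_)
  have : mat (iG P N γ P0 β0 n hb ρ z z') e.succ j =
      ((P (ρ.symm e).val j.val).toNat : ℝ) - (N (ρ.symm e).val j.val).toNat := by
    show ((iG P N γ P0 β0 n hb ρ z z' (.inl (e.succ, j, false))).toNat : ℝ) -
      (iG P N γ P0 β0 n hb ρ z z' (.inl (e.succ, j, true))).toNat = _
    rw [iG_inl, iG_inl]
    simp [fG]
  rw [this]

theorem row_zero (hb : 4 * b ≤ m) (ρ : Equiv.Perm (Fin m)) (z z' : Fin b → Bool)
    (y : Fin n → ℝ) : (mat (iG P N γ P0 β0 n hb ρ z z') *ᵥ y) 0 =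
      ∑ j : Fin n, ((P0 j.val).toNat : ℝ) * y j := by
  show ∑ j, mat (iG P N γ P0 β0 n hb ρ z z') 0 j * y j = _
  refine sum_congr rfl (fun j _ => ?_)
  have : mat (iG P N γ P0 β0 n hb ρ z z') 0 j = ((P0 j.val).toNat : ℝ) := by
    show ((iG P N γ P0 β0 n hb ρ z z' (.inl (0, j, false))).toNat : ℝ) -
      (iG P N γ P0 β0 n hb ρ z z' (.inl (0, j, true))).toNat = _
    rw [iG_inl, iG_inl]
    simp [fG]
  rw [this]

/-- A sum with one term. -/
theorem one_term (f : ℕ → ℝ) (y : Fin n → ℝ) {j : ℕ} (hj : j < n) (hf : ∀ l, l ≠ j → f l = 0) :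
    ∑ l : Fin n, f l.val * y l = f j * y ⟨j, hj⟩ := by
  rw [sum_eq_single ⟨j, hj⟩]
  · intro l _ hl
    rw [hf l.val (fun h => hl (Fin.ext h)), zero_mul]
  · intro h
    exact absurd (mem_univ _) h

/-! ### The two kinds of systems -/

def PF (b r j : ℕ) : Bool := decide (j < b ∧ r = 4 * j)
def NF (b r j : ℕ) : Bool := decide (j < b ∧ r = 4 * j + 2)
def γF (b r : ℕ) : Bool := decide (∃ j < b, r = 4 * j + 2)

/-- Solvable iff `z ≤ z'`. -/
noncomputable def iF (n : ℕ) (hb : 4 * b ≤ m) (ρ : Equiv.Perm (Fin m)) (z z' : Fin b → Bool) :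
    Bit (m + 1) n → Bool :=
  iG (PF b) (NF b) (γF b) (fun _ => false) false n hb ρ z z'

def NI (b r j : ℕ) : Bool := decide (j < b ∧ (r = 4 * j ∨ r = 4 * j + 2))
def γI (b r : ℕ) : Bool := decide (∃ j < b, r = 4 * j ∨ r = 4 * j + 2)

/-- Unsolvable iff `z' ≤ z`. -/
noncomputable def iI (n : ℕ) (hb : 4 * b ≤ m) (ρ : Equiv.Perm (Fin m)) (z z' : Fin b → Bool) :
    Bit (m + 1) n → Bool :=
  iG (fun _ _ => false) (NI b) (γI b) (fun j => decide (j < b)) true n hb ρ z z'

theorem solv_F (hb : 4 * b ≤ m) (hbn : b ≤ n) (ρ : Equiv.Perm (Fin m)) (z z' : Fin b → Bool) :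
    Solvable (iF n hb ρ z z') ↔ ∀ j, z j = true → z' j = true := by
  have row0 : ∀ (y : Fin n → ℝ) (e : Fin m) (j : ℕ) (hj : j < b), (ρ.symm e).val = 4 * j →
      (mat (iF n hb ρ z z') *ᵥ y) e.succ = y ⟨j, by omega⟩ := by
    intro y e j hj he
    unfold iF
    rw [row_succ, he, one_term (fun l => ((PF b (4 * j) l).toNat : ℝ) - (NF b (4 * j) l).toNat) y
      (by omega : j < n)]
    · have h1 : PF b (4 * j) j = true := by simp [PF, hj]
      have h2 : NF b (4 * j) j = false := by simp [NF]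
      rw [h1, h2]
      simp
    · intro l hl
      have h1 : PF b (4 * j) l = false := by
        simp only [PF, decide_eq_false_iff_not]
        omega
      have h2 : NF b (4 * j) l = false := by
        simp only [NF, decide_eq_false_iff_not]
        omega
      rw [h1, h2]
      simp
  have row2 : ∀ (y : Fin n → ℝ) (e : Fin m) (j : ℕ) (hj : j < b), (ρ.symm e).val = 4 * j + 2 →
      (mat (iF n hb ρ z z') *ᵥ y) e.succ = - y ⟨j, by omega⟩ := by
    intro y e j hj he
    unfold iF
    rw [row_succ, he, one_term (fun l => ((PF b (4 * j + 2) l).toNat : ℝ) -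
      (NF b (4 * j + 2) l).toNat) y (by omega : j < n)]
    · have h1 : PF b (4 * j + 2) j = false := by simp [PF]
      have h2 : NF b (4 * j + 2) j = true := by simp [NF, hj]
      rw [h1, h2]
      simp
    · intro l hl
      have h1 : PF b (4 * j + 2) l = false := by
        simp only [PF, decide_eq_false_iff_not]
        omega
      have h2 : NF b (4 * j + 2) l = false := by
        simp only [NF, decide_eq_false_iff_not]
        omega
      rw [h1, h2]
      simp
  have rowo : ∀ (y : Fin n → ℝ) (e : Fin m), (∀ j < b, (ρ.symm e).val ≠ 4 * j ∧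
      (ρ.symm e).val ≠ 4 * j + 2) → (mat (iF n hb ρ z z') *ᵥ y) e.succ = 0 := by
    intro y e he
    unfold iF
    rw [row_succ]
    apply sum_eq_zero
    intro l _
    have h1 : PF b (ρ.symm e).val l.val = false := by
      simp only [PF, decide_eq_false_iff_not, not_and]
      exact fun h => (he _ h).1
    have h2 : NF b (ρ.symm e).val l.val = false := by
      simp only [NF, decide_eq_false_iff_not, not_and]
      exact fun h => (he _ h).2
    rw [h1, h2]
    simp
  have hv : ∀ e : Fin m, vec (iF n hb ρ z z') e.succ =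
      ((grS true (cc hb) z z' (ρ.symm e)).toNat : ℝ) - (γF b (ρ.symm e).val).toNat :=
    fun e => vec_succ _ _ _ _ _ hb ρ z z' e
  have g0 : ∀ r j : ℕ, r = 4 * j → γF b r = false := by
    intro r j hr
    simp only [γF, decide_eq_false_iff_not, not_exists, not_and]
    intro l _
    omega
  have g2 : ∀ r j : ℕ, j < b → r = 4 * j + 2 → γF b r = true := by
    intro r j hj hr
    simp only [γF, decide_eq_true_eq]
    exact ⟨j, hj, hr⟩
  constructor
  · rintro ⟨y, hy⟩ j hj
    have e0 : (ρ.symm (ρ (cc hb (j, 0)))).val = 4 * j.val := by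
      rw [Equiv.symm_apply_apply]
      rfl
    have e2 : (ρ.symm (ρ (cc hb (j, 2)))).val = 4 * j.val + 2 := by
      rw [Equiv.symm_apply_apply]
      rfl
    have h0 := hy (ρ (cc hb (j, 0))).succ
    have h2 := hy (ρ (cc hb (j, 2))).succ
    rw [hv, row0 y _ j.val j.isLt e0, gr_zero true hb z z' j e0, g0 _ _ e0, hj] at h0
    rw [hv, row2 y _ j.val j.isLt e2, gr_two true hb z z' j e2, g2 _ _ j.isLt e2] at h2
    by_contra hcon
    rw [Bool.not_eq_true] at hcon
    rw [hcon] at h2
    simp at h0 h2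
    linarith
  · intro h
    refine ⟨fun l => if hl : l.val < b then ((z ⟨l.val, hl⟩).toNat : ℝ) else 0, fun i => ?_⟩
    refine Fin.cases ?_ (fun e => ?_) i
    · unfold iF
      rw [vec_zero, row_zero]
      simp
    · rw [hv]
      rcases place b (ρ.symm e).val with ⟨j, hj, he⟩ | ⟨j, hj, he⟩ | he
      · rw [row0 _ e j hj he, gr_zero true hb z z' ⟨j, hj⟩ he, g0 _ _ he]
        simp [hj]
      · rw [row2 _ e j hj he, gr_two true hb z z' ⟨j, hj⟩ he, g2 _ _ hj he]
        have h3 := h ⟨j, hj⟩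
        simp only [hj, dite_true]
        cases hz : z ⟨j, hj⟩ <;> cases hz' : z' ⟨j, hj⟩ <;> simp_all
      · rw [rowo _ e he, gr_other true hb z z' he]
        simp

theorem solv_I (hb : 4 * b ≤ m) (hbn : b ≤ n) (ρ : Equiv.Perm (Fin m)) (z z' : Fin b → Bool) :
    ¬ Solvable (iI n hb ρ z z') ↔ ∀ j, z' j = true → z j = true := by
  have row1 : ∀ (y : Fin n → ℝ) (e : Fin m) (j : ℕ) (hj : j < b),
      ((ρ.symm e).val = 4 * j ∨ (ρ.symm e).val = 4 * j + 2) →
      (mat (iI n hb ρ z z') *ᵥ y) e.succ = - y ⟨j, by omega⟩ := by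
    intro y e j hj he
    unfold iI
    rw [row_succ, one_term (fun l => ((false : Bool).toNat : ℝ) -
      (NI b (ρ.symm e).val l).toNat) y (by omega : j < n)]
    · have h2 : NI b (ρ.symm e).val j = true := by
        simp only [NI, decide_eq_true_eq]
        exact ⟨hj, he⟩
      rw [h2]
      simp
    · intro l hl
      have h2 : NI b (ρ.symm e).val l = false := by
        simp only [NI, decide_eq_false_iff_not]
        omega
      simp only [h2]
      simp
  have rowo : ∀ (y : Fin n → ℝ) (e : Fin m), (∀ j < b, (ρ.symm e).val ≠ 4 * j ∧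
      (ρ.symm e).val ≠ 4 * j + 2) → (mat (iI n hb ρ z z') *ᵥ y) e.succ = 0 := by
    intro y e he
    unfold iI
    rw [row_succ]
    apply sum_eq_zero
    intro l _
    have h2 : NI b (ρ.symm e).val l.val = false := by
      simp only [NI, decide_eq_false_iff_not, not_and, not_or]
      exact fun h => he _ h
    rw [h2]
    simp
  have hv : ∀ e : Fin m, vec (iI n hb ρ z z') e.succ =
      ((grS true (cc hb) z z' (ρ.symm e)).toNat : ℝ) - (γI b (ρ.symm e).val).toNat :=
    fun e => vec_succ _ _ _ _ _ hb ρ z z' e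
  have g1 : ∀ r j : ℕ, j < b → (r = 4 * j ∨ r = 4 * j + 2) → γI b r = true := by
    intro r j hj hr
    simp only [γI, decide_eq_true_eq]
    exact ⟨j, hj, hr⟩
  have r0 : ∀ y : Fin n → ℝ, (mat (iI n hb ρ z z') *ᵥ y) 0 =
      ∑ j : Fin n, ((decide (j.val < b)).toNat : ℝ) * y j := fun y =>
    row_zero _ _ _ _ _ hb ρ z z' y
  constructor
  · intro h j hj
    by_contra hcon
    rw [Bool.not_eq_true] at hcon
    apply h
    refine ⟨fun l => if l.val = j.val then 1 else 0, fun i => ?_⟩
    refine Fin.cases ?_ (fun e => ?_) i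
    · rw [r0]
      unfold iI
      rw [vec_zero, sum_eq_single ⟨j.val, by omega⟩]
      · simp
      · intro l _ hl
        have : l.val ≠ j.val := fun h => hl (Fin.ext h)
        simp [this]
      · intro h'
        exact absurd (mem_univ _) h'
    · rw [hv]
      rcases place b (ρ.symm e).val with ⟨l, hl, he⟩ | ⟨l, hl, he⟩ | he
      · rw [row1 _ e l hl (Or.inl he), gr_zero true hb z z' ⟨l, hl⟩ he, g1 _ _ hl (Or.inl he)]
        by_cases hlj : l = j.val
        · have : (⟨l, hl⟩ : Fin b) = j := Fin.ext hlj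
          rw [this, hcon]
          simp [hlj]
        · have h3 : ((z ⟨l, hl⟩).toNat : ℝ) ≤ 1 := by exact_mod_cast Bool.toNat_le _
          simp only [hlj, if_false, Bool.toNat_true]
          push_cast
          linarith
      · rw [row1 _ e l hl (Or.inr he), gr_two true hb z z' ⟨l, hl⟩ he, g1 _ _ hl (Or.inr he)]
        by_cases hlj : l = j.val
        · have : (⟨l, hl⟩ : Fin b) = j := Fin.ext hlj
          rw [this, hj]
          simp [hlj]
        · have h3 : (((true ^^ z' ⟨l, hl⟩) : Bool).toNat : ℝ) ≤ 1 := by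
            exact_mod_cast Bool.toNat_le _
          simp only [hlj, if_false, Bool.toNat_true]
          push_cast
          linarith
      · rw [rowo _ e he, gr_other true hb z z' he]
        simp
  · rintro h ⟨y, hy⟩
    have h0 := hy 0
    rw [r0] at h0
    unfold iI at h0
    rw [vec_zero] at h0
    have h1 : ∑ j : Fin n, ((decide (j.val < b)).toNat : ℝ) * y j ≤ 0 := by
      apply sum_nonpos
      intro l _
      by_cases hl : l.val < b
      · have e0 : (ρ.symm (ρ (cc hb (⟨l.val, hl⟩, 0)))).val = 4 * l.val := by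
          rw [Equiv.symm_apply_apply]
          rfl
        have e2 : (ρ.symm (ρ (cc hb (⟨l.val, hl⟩, 2)))).val = 4 * l.val + 2 := by
          rw [Equiv.symm_apply_apply]
          rfl
        have k0 := hy (ρ (cc hb (⟨l.val, hl⟩, 0))).succ
        have k2 := hy (ρ (cc hb (⟨l.val, hl⟩, 2))).succ
        rw [hv, row1 y _ l.val hl (Or.inl e0), gr_zero true hb z z' ⟨l.val, hl⟩ e0,
          g1 _ _ hl (Or.inl e0)] at k0
        rw [hv, row1 y _ l.val hl (Or.inr e2), gr_two true hb z z' ⟨l.val, hl⟩ e2,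
          g1 _ _ hl (Or.inr e2)] at k2
        have h3 := h ⟨l.val, hl⟩
        have h4 : y l ≤ 0 := by
          have e : (⟨l.val, by omega⟩ : Fin n) = l := rfl
          rw [e] at k0 k2
          cases hz : z ⟨l.val, hl⟩ <;> cases hz' : z' ⟨l.val, hl⟩ <;> rw [hz] at k0 <;>
            rw [hz'] at k2 <;> simp_all <;> linarith
        simp only [hl, decide_true, Bool.toNat_true]
        push_cast
        linarith
      · simp [hl]
    simp at h0
    linarith

end Pool.Agent.Q230.LF
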