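import Pool.Agent.Q230.LF.Gen

/-!
# Linear feasibility, and circuits of small formal degree: the bounds
-/

set_option autoImplicit false

open Finset Matrix

namespace Pool.Agent.Q230.LF

open Pool.Agent.W896.RK Pool.Agent.W896.HP Pool.Agent.W896.FD Pool.Agent.W896.FD.Star

variable {m n b : ℕ}

theorem ne_of_dst {z z' : Fin b → Bool} (h : 0 < dst z z') : ∃ i, z i ≠ z' i := by
  unfold dst at h
  obtain ⟨i, hi⟩ := card_pos.1 h
  exact ⟨i, (mem_filter.1 hi).2⟩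

theorem anti {z z' : Fin b → Bool} (h : 0 < dst z z') (h1 : ∀ j, z j = true → z' j = true)
    (h2 : ∀ j, z' j = true → z j = true) : False := by
  obtain ⟨i, hi⟩ := ne_of_dst h
  have h3 := h1 i
  have h4 := h2 i
  cases hz : z i <;> cases hz' : z' i <;> simp_all

/-- Circuits which accept the solvable systems. -/
theorem fd_solv (k : ℕ) (hb : 4 * b ≤ m) (hbn : b ≤ n) (hb2 : m ≤ 64 * (b + 1)) (R : Type)
    [Fintype R] [Nonempty R] (U : R → Circ (Bit (m + 1) n))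
    (hU : ∀ r x, (U r).Val x (U r).out → Solvable x)
    (hc : ∀ x, Solvable x →
      Nat.card R ≤ 2 ^ (m / 2 ^ (60 * (k + 1))) * Nat.card {r // (U r).Val x (U r).out})
    (hd : ∀ r, ∃ d : (U r).G → Fin m → ℕ, IsDeg (U r) fr d ∧ ∑ e, d (U r).out e ≤ k * m) :
    ∃ r, m ≤ 2 ^ (60 * (k + 1)) * (Nat.log 2 (Fintype.card (U r).G) + 1) := by
  refine Star.final (ν := true) k (b := b) hb2 (fr_inj (n := n))
    (fG n (PF b) (NF b) (γF b) (fun _ => false) false) (cc hb)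
    (fun _ z z' => ∀ j, z j = true → z' j = true) 0 ?_ ?_ R U ?_ ?_ hd
  · rw [vol_zero]
    exact Nat.one_le_two_pow
  · rintro ρ z z' h ⟨h1, h2⟩
    exact anti h h1 h2
  · intro r ρ z z' h
    exact (solv_F hb hbn ρ z z').1 (hU r _ h)
  · intro ρ z
    exact hc _ ((solv_F hb hbn ρ z z).2 (fun j hj => hj))

/-- Circuits which accept the unsolvable systems. -/
theorem fd_unsolv (k : ℕ) (hb : 4 * b ≤ m) (hbn : b ≤ n) (hb2 : m ≤ 64 * (b + 1)) (R : Type)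
    [Fintype R] [Nonempty R] (U : R → Circ (Bit (m + 1) n))
    (hU : ∀ r x, (U r).Val x (U r).out → ¬ Solvable x)
    (hc : ∀ x, ¬ Solvable x →
      Nat.card R ≤ 2 ^ (m / 2 ^ (60 * (k + 1))) * Nat.card {r // (U r).Val x (U r).out})
    (hd : ∀ r, ∃ d : (U r).G → Fin m → ℕ, IsDeg (U r) fr d ∧ ∑ e, d (U r).out e ≤ k * m) :
    ∃ r, m ≤ 2 ^ (60 * (k + 1)) * (Nat.log 2 (Fintype.card (U r).G) + 1) := by
  refine Star.final (ν := true) k (b := b) hb2 (fr_inj (n := n))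
    (fG n (fun _ _ => false) (NI b) (γI b) (fun j => decide (j < b)) true) (cc hb)
    (fun _ z z' => ∀ j, z' j = true → z j = true) 0 ?_ ?_ R U ?_ ?_ hd
  · rw [vol_zero]
    exact Nat.one_le_two_pow
  · rintro ρ z z' h ⟨h1, h2⟩
    exact anti h h2 h1
  · intro r ρ z z' h
    exact (solv_I hb hbn ρ z z').1 (hU r _ h)
  · intro ρ z
    exact hc _ ((solv_I hb hbn ρ z z).2 (fun j hj => hj))

theorem fin_arith {k m : ℕ} (hm : 1 ≤ m) {g : ℕ}
    (h : m ≤ 2 ^ (60 * (k + 1 + 1)) * (g + 1)) : m + 1 ≤ 2 ^ (60 * (k + 3)) * (g + 1) := by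
  have hpow : 2 ^ (60 * (k + 3)) = 2 ^ 60 * 2 ^ (60 * (k + 1 + 1)) := by
    rw [← pow_add]; congr 1; ring
  rw [hpow, mul_assoc]
  have h1 : m + 1 ≤ 2 * m := by omega
  have h2 : 2 ≤ 2 ^ 60 := by norm_num
  calc m + 1 ≤ 2 * m := h1
    _ ≤ 2 ^ 60 * (2 ^ (60 * (k + 1 + 1)) * (g + 1)) := Nat.mul_le_mul h2 h

theorem exp_arith {k m : ℕ} (hm : 1 ≤ m) :
    (m + 1) / 2 ^ (60 * (k + 3)) ≤ m / 2 ^ (60 * (k + 1 + 1)) := by
  have hpow : 2 ^ (60 * (k + 3)) = 2 ^ 60 * 2 ^ (60 * (k + 1 + 1)) := by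
    rw [← pow_add]; congr 1; ring
  rw [Nat.le_div_iff_mul_le (Nat.two_pow_pos _)]
  have h1 : (m + 1) / 2 ^ (60 * (k + 3)) * 2 ^ (60 * (k + 3)) ≤ m + 1 := Nat.div_mul_le_self _ _
  have h2 : (m + 1) / 2 ^ (60 * (k + 3)) * (2 * 2 ^ (60 * (k + 1 + 1))) ≤ m + 1 := by
    refine le_trans (Nat.mul_le_mul_left _ ?_) h1
    rw [hpow]
    exact Nat.mul_le_mul_right _ (by norm_num)
  have h3 : (m + 1) / 2 ^ (60 * (k + 3)) * (2 * 2 ^ (60 * (k + 1 + 1))) =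
      2 * ((m + 1) / 2 ^ (60 * (k + 3)) * 2 ^ (60 * (k + 1 + 1))) := by ring
  rw [h3] at h2
  omega

theorem deg_arith {k m : ℕ} (hk : k ≤ m) {U : Circ (Bit (m + 1) n)} {d : U.G → Bit (m + 1) n → ℕ}
    (h : ∑ i : Fin (m + 1), d U.out (.inr (i, false)) ≤ k * (m + 1)) :
    ∑ e : Fin m, d U.out (fr e) ≤ (k + 1) * m := by
  rw [Fin.sum_univ_succ] at h
  have h1 : ∑ e : Fin m, d U.out (fr e) ≤ k * (m + 1) := le_trans (Nat.le_add_left _ _) h
  nlinarith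

theorem small_case {k M : ℕ} (hM : M ≤ k + 1) {g : ℕ} :
    M ≤ 2 ^ (60 * (k + 3)) * (g + 1) := by
  have hk : k + 1 ≤ 2 ^ (k + 1) := Nat.lt_two_pow_self.le
  calc M ≤ 2 ^ (k + 1) := hM.trans hk
    _ ≤ 2 ^ (60 * (k + 3)) := Nat.pow_le_pow_right (by norm_num) (by omega)
    _ ≤ _ := Nat.le_mul_of_pos_right _ (by omega)

/-- **The bound for both answers.** -/
theorem main (k M n : ℕ) (hn : M ≤ 64 * n) (ans : Prop) (R : Type) [Fintype R] [Nonempty R]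
    (U : R → Circ (Bit M n)) (hU : ∀ r x, (U r).Val x (U r).out → (Solvable x ↔ ans))
    (hc : ∀ x, (Solvable x ↔ ans) →
      Nat.card R ≤ 2 ^ (M / 2 ^ (60 * (k + 3))) * Nat.card {r // (U r).Val x (U r).out})
    (hd : ∀ r, ∃ d : (U r).G → Bit M n → ℕ, IsDeg (U r) id d ∧
      ∑ i, d (U r).out (.inr (i, false)) ≤ k * M) :
    ∃ r, M ≤ 2 ^ (60 * (k + 3)) * (Nat.log 2 (Fintype.card (U r).G) + 1) := by
  rcases Nat.lt_or_ge M (k + 2) with hM | hM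
  · obtain ⟨r⟩ := (inferInstance : Nonempty R)
    exact ⟨r, small_case (by omega)⟩
  obtain ⟨m, rfl⟩ : ∃ m, M = m + 1 := ⟨M - 1, by omega⟩
  have hm : 1 ≤ m := by omega
  have hd' : ∀ r, ∃ d : (U r).G → Fin m → ℕ, IsDeg (U r) fr d ∧
      ∑ e, d (U r).out e ≤ (k + 1) * m := fun r => by
    obtain ⟨d, hd1, hd2⟩ := hd r
    exact ⟨_, Pool.Agent.W896.FD.Tri.deg_comp hd1 fr, deg_arith (by omega) hd2⟩
  have hpow : 2 ^ ((m + 1) / 2 ^ (60 * (k + 3))) ≤ 2 ^ (m / 2 ^ (60 * (k + 1 + 1))) :=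
    Nat.pow_le_pow_right (by norm_num) (exp_arith hm)
  by_cases ha : ans
  · simp only [ha, iff_true] at hU hc
    obtain ⟨r, hr⟩ := fd_solv (k + 1) (b := m / 64) (by omega) (by omega) (by omega) R U hU
      (fun x hx => (hc x hx).trans (Nat.mul_le_mul_right _ hpow)) hd'
    exact ⟨r, fin_arith hm hr⟩
  · simp only [ha, iff_false] at hU hc
    obtain ⟨r, hr⟩ := fd_unsolv (k + 1) (b := m / 64) (by omega) (by omega) (by omega) R U hU
      (fun x hx => (hc x hx).trans (Nat.mul_le_mul_right _ hpow)) hd'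
    exact ⟨r, fin_arith hm hr⟩

end Pool.Agent.Q230.LF
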